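import Pool.Agent.LC5.Stmts

/-!
# MP_e0fe99_lc, rows GE4 and GE3: generic configurations of chains with four and three links
-/

set_option autoImplicit false

open Topology

namespace Pool.Agent.LC5.H24

open Pool.Agent.LCK

theorem ap_pos {n : ℕ} {l : Fin n → ℝ} (hl : ∀ k, 0 < l k) {e : ℝ} (he : 0 < e) :
    ∀ k, 0 < ap l e k := by
  intro k
  induction k using Fin.lastCases with
  | last => unfold ap; rw [Fin.snoc_last]; exact he
  | cast i => unfold ap; rw [Fin.snoc_castSucc]; exact hl i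

/-- append a link of length 1, move, and forget it again -/
theorem forget {n : ℕ} (snc : SNCStmt) (den : DENStmt) (l : Fin n → ℝ) (hl : ∀ k, 0 < l k)
    (v : Fin (n + 1) → E3) (hv : v ∈ Conf l) (P : (Fin (n + 2) → E3) → Prop)
    (h : ∀ w ∈ Conf (ap l 1), ∃ w' ∈ Conf (ap l 1), JoinedIn (Conf (ap l 1)) w w' ∧ P w') :
    ∃ w' : Fin (n + 2) → E3, (fun i : Fin (n + 1) => w' i.castSucc) ∈ Conf l ∧
      JoinedIn (Conf l) v (fun i : Fin (n + 1) => w' i.castSucc) ∧ P w' := by
  obtain ⟨snc1, snc2, -, -⟩ := snc n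
  let u : E3 := EuclideanSpace.single 0 1
  have hu : ‖u‖ = 1 := by
    show ‖(EuclideanSpace.single 0 1 : E3)‖ = 1
    rw [PiLp.norm_single, norm_one]
  have hu0 : u ≠ 0 := by
    intro h0
    rw [h0, norm_zero] at hu
    exact zero_ne_one hu
  obtain ⟨y, -, hy1, hy2⟩ := den n l hl v hv (v (Fin.last n) + u) 1
    (fun h0 => hu0 (by
      have h1 := congrArg (fun z => z - v (Fin.last n)) h0
      simpa using h1)) one_pos
  have hd : dist (v (Fin.last n)) y = 1 := by
    rw [hy1, dist_eq_norm, sub_add_cancel_left, norm_neg, hu]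
  have hok : Ok v y := by
    have h1 := hy2 1 one_pos
    rwa [one_smul, add_sub_cancel] at h1
  have hav : av v y ∈ Conf (ap l 1) := (snc1 l 1 v y).mpr ⟨hv, hd, hok⟩
  obtain ⟨w', hw', hj, hP⟩ := h _ hav
  have hF : Continuous (fun (w : Fin (n + 2) → E3) (i : Fin (n + 1)) => w i.castSucc) :=
    continuous_pi fun i => continuous_apply i.castSucc
  have hmap : ∀ w ∈ Conf (ap l 1), (fun i : Fin (n + 1) => w i.castSucc) ∈ Conf l := by
    intro w hw
    rw [← snc2 w] at hw
    exact ((snc1 l 1 _ _).mp hw).1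
  refine ⟨w', hmap w' hw', ?_, hP⟩
  have h1 := (hj.map_continuousOn hF.continuousOn).mono
    (V := Conf l) (by rintro _ ⟨w, hw, rfl⟩; exact hmap w hw)
  have h2 : (fun i : Fin (n + 1) => av v y i.castSucc) = v := by
    funext i
    unfold av
    rw [Fin.snoc_castSucc]
  rw [h2] at h1
  exact h1

/-- Row GE4. -/
theorem ge4 (snc : SNCStmt) (den : DENStmt) (ge5 : GE5Stmt) : GE4Stmt := by
  intro l hl v hv
  obtain ⟨w', h1, h2, h3⟩ := forget snc den l hl v hv Gen (ge5 (ap l 1) (ap_pos hl one_pos))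
  exact ⟨_, h1, h2, h3.1, h3.2.1, h3.2.2.1⟩

/-- Row GE3. -/
theorem ge3 (snc : SNCStmt) (den : DENStmt) (ge4 : GE4Stmt) : GE3Stmt := by
  intro l hl v hv
  obtain ⟨w', h1, h2, h3⟩ := forget snc den l hl v hv _ (ge4 (ap l 1) (ap_pos hl one_pos))
  exact ⟨_, h1, h2, h3.2.2⟩

end Pool.Agent.LC5.H24
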